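import Pool.Agent.Helper27.VF.Goals

/-!
# Project VF (MP_266b34_co): cuts between two vertices
-/

set_option autoImplicit false

namespace Pool.Agent.Helper85.VF

open Pool.Agent.Helper27.VF

universe u

/-- A walk from the first to the second side meets the separator. -/
theorem walk_meets {W : Type u} {G G₀ : SimpleGraph W} (hle : G₀ ≤ G) {c : Set W × Set W}
    (hc : IsCut G c) {x y : W} (q : G₀.Walk x y) (hx : x ∉ c.2) (hy : y ∉ c.1) :
    ∃ v ∈ q.support, v ∈ sep c := by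
  induction q with
  | nil => exact ⟨_, by simp, mem_sep.2 ⟨hy, hx⟩⟩
  | @cons a b d h q ih =>
    by_cases ha : a ∈ c.1
    · have hb : b ∉ c.2 := fun hb => hc.no a ha b hb (hle h)
      obtain ⟨v, hv, hs⟩ := ih hb hy
      exact ⟨v, by simp [hv], hs⟩
    · exact ⟨a, by simp, mem_sep.2 ⟨ha, hx⟩⟩

theorem pth (h1 : LocStmt.{u}) : PthStmt.{u} := by
  intro A W _ _ G G₀ w p h k hk x y
  obtain ⟨q⟩ := h.conn.preconnected x y
  have hfin : (⋃ v ∈ {v | v ∈ q.support}, {c | c ∈ SS A G p k ∧ v ∈ sep c}).Finite :=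
    Set.Finite.biUnion (List.finite_toSet q.support)
      fun v _ => (h1 A W G G₀ w p h k hk).1 v
  refine hfin.subset ?_
  rintro c ⟨hc, hx, hy⟩
  obtain ⟨v, hv, hs⟩ := walk_meets h.le hc.1 q hx hy
  exact Set.mem_biUnion hv ⟨hc, hs⟩

end Pool.Agent.Helper85.VF
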